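import Mathlib

/-!
# Induced group-module summands in tensor powers of monoid modules (MP_09fe95_al)

For every finite monoid `M`, every field `k` and every nonzero finite-dimensional `kM`-module `V`
on which only `1` acts as the identity, some tensor power of `V` has a nonzero direct summand of
the form `Ind(W)`.
-/

namespace Pool.Agent.Results.MP_09fe95_al.IndSummand

open scoped TensorProduct

universe u v w x

section defs

variable {k : Type v} [Field k] {M : Type u} [Monoid M]

/-- The `n`-fold tensor power of a `kM`-module `(V, ρ)`, with `M` acting diagonally: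
`m (v₁ ⊗ ⋯ ⊗ vₙ) = m v₁ ⊗ ⋯ ⊗ m vₙ`. -/
noncomputable def tensorPower {V : Type w} [AddCommGroup V] [Module k V]
    (ρ : Representation k M V) (n : ℕ) : Representation k M (⨂[k]^n V) where
  toFun m := PiTensorProduct.map (fun _ => ρ m)
  map_one' := by
    ext x
    simp
  map_mul' a b := by
    ext x
    simp

open Classical in
/-- The `kM`-module `Ind(W)` of a `kMˣ`-module `(W, σ)`: the underlying space is `W`, a unit `g`
of `M` acts as it does on `W`, and every non-unit of the finite monoid `M` acts as `0`. -/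
noncomputable def ind [Finite M] {W : Type x} [AddCommGroup W] [Module k W]
    (σ : Representation k Mˣ W) : Representation k M W where
  toFun m := if h : IsUnit m then σ h.unit else 0
  map_one' := by
    have h1 : (isUnit_one : IsUnit (1 : M)).unit = 1 := by
      ext; simp
    rw [dif_pos isUnit_one, h1, map_one]
  map_mul' a b := by
    by_cases ha : IsUnit a
    · by_cases hb : IsUnit b
      · have hab : IsUnit (a * b) := ha.mul hb
        have h1 : hab.unit = ha.unit * hb.unit := by
          ext; simp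
        rw [dif_pos ha, dif_pos hb, dif_pos hab, h1, map_mul]
      · have hab : ¬ IsUnit (a * b) := fun h => hb (isUnit_of_mul_isUnit_right h)
        rw [dif_pos ha, dif_neg hb, dif_neg hab, mul_zero]
    · have hab : ¬ IsUnit (a * b) := fun h => ha (isUnit_of_mul_isUnit_left h)
      rw [dif_neg ha, dif_neg hab, zero_mul]

/-- `(U, τ)` is isomorphic to a direct summand of the `kM`-module `(V, ρ)`: there are
`kM`-linear maps `U → V → U` whose composite is the identity of `U`. -/
def IsSummand {U : Type w} [AddCommGroup U] [Module k U] {V : Type x} [AddCommGroup V]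
    [Module k V] (τ : Representation k M U) (ρ : Representation k M V) : Prop :=
  ∃ (i : U →ₗ[k] V) (r : V →ₗ[k] U),
    (∀ m x, i (τ m x) = ρ m (i x)) ∧ (∀ m y, r (ρ m y) = τ m (r y)) ∧ ∀ x, r (i x) = x

end defs

/-! ### The abstract criterion -/

section criterion

variable {k : Type v} [Field k] {M : Type u} [Monoid M] [Finite M]
  {T : Type w} [AddCommGroup T] [Module k T] (ρ : Representation k M T)

omit [Finite M] in
/-- units act invertibly -/
theorem unit_inv_apply (g : Mˣ) (x : T) : ρ ((g⁻¹ : Mˣ) : M) (ρ (g : M) x) = x := by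
  rw [← Module.End.mul_apply, ← map_mul, ← Units.val_mul, inv_mul_cancel, Units.val_one, map_one,
    Module.End.one_apply]

theorem exists_ind_summand (Z : Finset Mˣ) (hZ : ((Z.card : ℕ) : k) ≠ 0) (w : T)
    (f : T →ₗ[k] k) (hfw : f w = 1) (hfZ : ∀ g : Mˣ, g ∉ Z → f (ρ (g : M) w) = 0)
    (hZw : ∀ g ∈ Z, ∃ c : k, ρ (g : M) w = c • w)
    (hf0 : ∀ m : M, ¬ IsUnit m → ∀ x, f (ρ m x) = 0)
    (hw0 : ∀ m : M, ¬ IsUnit m → ρ m w = 0) :
    ∃ (W : Submodule k T) (_ : Nontrivial W) (_ : FiniteDimensional k W)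
      (σ : Representation k Mˣ W), IsSummand (ind σ) ρ := by
  classical
  haveI : Fintype Mˣ := Fintype.ofFinite _
  -- the projection
  set P : T →ₗ[k] T := ((Z.card : k))⁻¹ • ∑ g : Mˣ,
    (f.comp (ρ (g : M))).smulRight (ρ ((g⁻¹ : Mˣ) : M) w) with hP
  have hPapp : ∀ x, P x = ((Z.card : k))⁻¹ • ∑ g : Mˣ,
      f (ρ (g : M) x) • ρ ((g⁻¹ : Mˣ) : M) w := by
    intro x
    simp [hP, LinearMap.sum_apply]
  -- P commutes with units
  have hPu : ∀ (h : Mˣ) (x : T), P (ρ (h : M) x) = ρ (h : M) (P x) := by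
    intro h x
    rw [hPapp, hPapp, map_smul, map_sum]
    congr 1
    refine Fintype.sum_bijective (fun g => g * h) (Group.mulRight_bijective h) _ _ ?_
    intro g
    rw [map_smul, ← Module.End.mul_apply, ← map_mul, ← Module.End.mul_apply, ← map_mul,
      ← Units.val_mul, ← Units.val_mul]
    congr 4
    group
  -- P kills images of non-units, and non-units kill the image
  have hPn : ∀ m : M, ¬ IsUnit m → ∀ x, P (ρ m x) = 0 := by
    intro m hm x
    rw [hPapp]
    rw [Finset.sum_eq_zero, smul_zero]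
    intro g _
    have h1 : ¬ IsUnit ((g : M) * m) := fun h => hm (isUnit_of_mul_isUnit_right h)
    rw [← Module.End.mul_apply, ← map_mul, hf0 _ h1, zero_smul]
  have hnP : ∀ m : M, ¬ IsUnit m → ∀ x, ρ m (P x) = 0 := by
    intro m hm x
    rw [hPapp, map_smul, map_sum]
    rw [Finset.sum_eq_zero, smul_zero]
    intro g _
    have h1 : ¬ IsUnit (m * ((g⁻¹ : Mˣ) : M)) := fun h => hm (isUnit_of_mul_isUnit_left h)
    rw [map_smul, ← Module.End.mul_apply, ← map_mul, hw0 _ h1, smul_zero]
  -- P w = w
  have hPw : P w = w := by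
    rw [hPapp]
    have h1 : ∑ g : Mˣ, f (ρ (g : M) w) • ρ ((g⁻¹ : Mˣ) : M) w = ∑ g ∈ Z, w := by
      rw [← Finset.sum_subset (Finset.subset_univ Z)]
      · refine Finset.sum_congr rfl ?_
        intro g hg
        obtain ⟨c, hc⟩ := hZw g hg
        have h2 := unit_inv_apply ρ g w
        rw [hc, map_smul] at h2
        rw [hc, map_smul, hfw, smul_eq_mul, mul_one, h2]
      · intro g _ hg
        rw [hfZ g hg, zero_smul]
    rw [h1, Finset.sum_const, ← Nat.cast_smul_eq_nsmul k, smul_smul, inv_mul_cancel₀ hZ, one_smul]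
  -- P is idempotent
  have hPP : ∀ x, P (P x) = P x := by
    intro x
    conv_lhs => rw [hPapp x]
    rw [map_smul, map_sum]
    conv_rhs => rw [hPapp x]
    congr 1
    refine Finset.sum_congr rfl ?_
    intro g _
    rw [map_smul, hPu, hPw]
  have hw : w ≠ 0 := by
    rintro rfl
    rw [map_zero] at hfw
    exact zero_ne_one hfw
  -- the summand
  set W : Submodule k T := LinearMap.range P with hWdef
  have hPW : ∀ y ∈ W, P y = y := by
    rintro y ⟨x, rfl⟩
    exact hPP x
  have hstab : ∀ (g : Mˣ), ∀ y ∈ W, ρ (g : M) y ∈ W := by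
    rintro g y ⟨x, rfl⟩
    exact ⟨ρ (g : M) x, hPu g x⟩
  let σ : Representation k Mˣ W :=
    { toFun := fun g => (ρ (g : M)).restrict (hstab g)
      map_one' := by
        ext x
        simp
      map_mul' := by
        intro a b
        ext x
        simp }
  refine ⟨W, ?_, ?_, σ, W.subtype, P.codRestrict W (fun x => ⟨x, rfl⟩), ?_, ?_, ?_⟩
  · refine ⟨⟨⟨w, w, hPw⟩, 0, ?_⟩⟩
    intro h
    exact hw (congrArg Subtype.val h)
  · -- finite-dimensional: contained in a span of a finite set
    have hle : W ≤ Submodule.span k (Set.range fun g : Mˣ => ρ ((g⁻¹ : Mˣ) : M) w) := by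
      rintro y ⟨x, rfl⟩
      rw [hPapp]
      refine Submodule.smul_mem _ _ (Submodule.sum_mem _ ?_)
      intro g _
      exact Submodule.smul_mem _ _ (Submodule.subset_span ⟨g, rfl⟩)
    haveI : FiniteDimensional k
        (Submodule.span k (Set.range fun g : Mˣ => ρ ((g⁻¹ : Mˣ) : M) w)) :=
      FiniteDimensional.span_of_finite k (Set.finite_range _)
    exact Submodule.finiteDimensional_of_le hle
  · rintro m ⟨y, hy⟩
    by_cases hm : IsUnit m
    · have h1 : (ind σ) m = σ hm.unit := dif_pos hm
      rw [h1]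
      rfl
    · have h1 : (ind σ) m = 0 := dif_neg hm
      rw [h1]
      obtain ⟨x, rfl⟩ := hy
      simp only [LinearMap.zero_apply, map_zero, Submodule.subtype_apply]
      exact (hnP m hm x).symm
  · intro m y
    by_cases hm : IsUnit m
    · have h1 : (ind σ) m = σ hm.unit := dif_pos hm
      rw [h1]
      apply Subtype.ext
      exact hPu hm.unit y
    · have h1 : (ind σ) m = 0 := dif_neg hm
      rw [h1]
      apply Subtype.ext
      simp only [LinearMap.codRestrict_apply, LinearMap.zero_apply, ZeroMemClass.coe_zero]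
      exact hPn m hm y
  · rintro ⟨y, hy⟩
    apply Subtype.ext
    exact hPW y hy

end criterion


/-! ### Linear algebra -/

section linalg

variable {k : Type v} [Field k] {V : Type w} [AddCommGroup V] [Module k V]

/-- separation of a vector from a proper subspace -/
theorem exists_dual (U : Submodule k V) (y : V) (h : y ∉ U) :
    ∃ l : V →ₗ[k] k, (∀ u ∈ U, l u = 0) ∧ l y = 1 := by
  obtain ⟨l, hl, hl'⟩ := Submodule.exists_le_ker_of_notMem h
  refine ⟨(l y)⁻¹ • l, ?_, ?_⟩
  · intro u hu
    have h0 : l u = 0 := hl' hu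
    simp [h0]
  · simp [hl]

/-- a non-scalar operator -/
theorem exists_of_not_scalar (a : V →ₗ[k] V) (h : ∀ c : k, a ≠ c • 1) :
    ∃ (v : V) (l : V →ₗ[k] k), l v = 1 ∧ l (a v) = 0 := by
  have h1 : ∃ v, LinearIndependent k ![v, a v] := by
    by_contra hcon
    push Not at hcon
    obtain ⟨c, hc⟩ := LinearMap.exists_eq_smul_id_of_forall_notLinearIndependent hcon
    exact h c hc
  obtain ⟨v, hv⟩ := h1
  have h2 : v ∉ Submodule.span k ({a v} : Set V) := by
    rw [Submodule.mem_span_singleton]
    rintro ⟨c, hc⟩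
    rw [LinearIndependent.pair_iff] at hv
    have := hv 1 (-c) (by rw [one_smul, neg_smul, hc, add_neg_cancel])
    exact one_ne_zero this.1
  obtain ⟨l, hl, hl1⟩ := exists_dual _ _ h2
  exact ⟨v, l, hl1, hl _ (Submodule.mem_span_singleton_self _)⟩

end linalg

/-! ### The data in the tensor power -/

section data

variable {k : Type v} [Field k] {M : Type u} [Monoid M] [Finite M]
  {V : Type w} [AddCommGroup V] [Module k V] (ρ : Representation k M V)

theorem summand_of_families (n : ℕ) (Z : Finset Mˣ) (hZ : ((Z.card : ℕ) : k) ≠ 0)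
    (hZs : ∀ g ∈ Z, ∃ c : k, ρ (g : M) = c • 1)
    (v : Fin n → V) (l : Fin n → V →ₗ[k] k) (h1 : ∀ i, l i (v i) = 1)
    (h2 : ∀ g : Mˣ, g ∉ Z → ∃ i, l i (ρ (g : M) (v i)) = 0)
    (h3 : ∀ m : M, ¬ IsUnit m → ∃ i, ρ m (v i) = 0)
    (h4 : ∀ m : M, ¬ IsUnit m → ∃ i, ∀ x, l i (ρ m x) = 0) :
    ∃ (W : Submodule k (⨂[k]^n V)) (_ : Nontrivial W) (_ : FiniteDimensional k W)
      (σ : Representation k Mˣ W), IsSummand (ind σ) (tensorPower ρ n) := by
  classical
  have hact : ∀ (m : M) (x : Fin n → V),
      tensorPower ρ n m (PiTensorProduct.tprod k x) =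
        PiTensorProduct.tprod k (fun i => ρ m (x i)) := by
    intro m x
    exact PiTensorProduct.map_tprod _ _
  set f : (⨂[k]^n V) →ₗ[k] k :=
    PiTensorProduct.lift ((MultilinearMap.mkPiAlgebra k (Fin n) k).compLinearMap l) with hf
  have hfapp : ∀ x : Fin n → V, f (PiTensorProduct.tprod k x) = ∏ i, l i (x i) := by
    intro x
    rw [hf, PiTensorProduct.lift.tprod]
    simp
  refine exists_ind_summand (tensorPower ρ n) Z hZ (PiTensorProduct.tprod k v) f ?_ ?_ ?_ ?_ ?_
  · rw [hfapp]
    exact Finset.prod_eq_one fun i _ => h1 i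
  · intro g hg
    obtain ⟨i, hi⟩ := h2 g hg
    rw [hact, hfapp]
    exact Finset.prod_eq_zero (Finset.mem_univ i) hi
  · intro g hg
    obtain ⟨c, hc⟩ := hZs g hg
    refine ⟨∏ _i : Fin n, c, ?_⟩
    rw [hact, ← MultilinearMap.map_smul_univ]
    congr 1
    funext i
    rw [hc]
    simp
  · intro m hm x
    obtain ⟨i, hi⟩ := h4 m hm
    have h5 : f.comp (tensorPower ρ n m) = 0 := by
      ext y
      simp only [LinearMap.compMultilinearMap_apply, LinearMap.comp_apply, LinearMap.zero_apply]
      rw [hact, hfapp]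
      exact Finset.prod_eq_zero (Finset.mem_univ i) (hi _)
    exact LinearMap.congr_fun h5 x
  · intro m hm
    obtain ⟨i, hi⟩ := h3 m hm
    rw [hact]
    exact MultilinearMap.map_coord_zero _ i hi

end data

/-! ### The main theorem -/

section main

variable {k : Type v} [Field k] {M : Type u} [Monoid M] [Finite M]
  {V : Type w} [AddCommGroup V] [Module k V] (ρ : Representation k M V)

omit [Finite M] in
theorem pow_apply_eq (m : M) (a b : ℕ) (h : m ^ a = m ^ (a + b))
    (hinj : Function.Injective (ρ m) ∨ Function.Surjective (ρ m)) : ρ (m ^ b) = 1 := by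
  have h1 : (ρ m) ^ a = (ρ m) ^ a * (ρ m) ^ b := by
    rw [← map_pow, ← map_pow, ← map_mul, ← pow_add, ← h]
  have h1' : (ρ m) ^ a = (ρ m) ^ b * (ρ m) ^ a := by
    rw [← map_pow, ← map_pow, ← map_mul, ← pow_add, add_comm b a, ← h]
  rw [map_pow]
  rcases hinj with hi | hs
  · ext x
    have h2 : ((ρ m) ^ a) x = ((ρ m) ^ a) (((ρ m) ^ b) x) := by
      conv_lhs => rw [h1]
      rfl
    have h3 : Function.Injective ((ρ m) ^ a : V →ₗ[k] V) := by
      rw [Module.End.coe_pow]
      exact hi.iterate a
    rw [Module.End.one_apply]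
    exact (h3 h2).symm
  · ext x
    have h3 : Function.Surjective ((ρ m) ^ a : V →ₗ[k] V) := by
      rw [Module.End.coe_pow]
      exact hs.iterate a
    obtain ⟨y, rfl⟩ := h3 x
    rw [Module.End.one_apply]
    conv_rhs => rw [h1']
    rfl

/-- A non-unit of `M` acts neither injectively nor surjectively. -/
theorem nonunit_not_inj (hid : ∀ m : M, ρ m = 1 → m = 1) (m : M) (hm : ¬ IsUnit m) :
    ¬ (Function.Injective (ρ m) ∨ Function.Surjective (ρ m)) := by
  intro h
  obtain ⟨a, b, hab, heq⟩ := Finite.exists_ne_map_eq_of_infinite (fun n : ℕ => m ^ n)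
  wlog hlt : a < b generalizing a b with H
  · exact H b a hab.symm heq.symm (lt_of_le_of_ne (not_lt.mp hlt) hab.symm)
  obtain ⟨c, rfl⟩ := Nat.exists_eq_add_of_lt hlt
  have h1 := hid _ (pow_apply_eq ρ m a (c + 1) heq h)
  exact hm (IsUnit.of_pow_eq_one h1 (Nat.succ_ne_zero c))

/-- The units acting as scalars form a group of order prime to the characteristic. -/
theorem card_scalar_ne_zero (hid : ∀ m : M, ρ m = 1 → m = 1) (Z : Finset Mˣ)
    (hZ : ∀ g, g ∈ Z ↔ ∃ c : k, ρ (g : M) = c • 1) : ((Z.card : ℕ) : k) ≠ 0 := by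
  classical
  let S : Subgroup Mˣ :=
    { carrier := {g | ∃ c : k, ρ (g : M) = c • 1}
      mul_mem' := by
        rintro a b ⟨c, hc⟩ ⟨d, hd⟩
        refine ⟨c * d, ?_⟩
        rw [Units.val_mul, map_mul, hc, hd, smul_mul_smul_comm, one_mul]
      one_mem' := ⟨1, by simp⟩
      inv_mem' := by
        rintro a ⟨c, hc⟩
        by_cases hc0 : c = 0
        · refine ⟨1, ?_⟩
          have h0 : (1 : V →ₗ[k] V) = 0 := by
            have h1 : ρ ((a : M) * ((a⁻¹ : Mˣ) : M)) = 1 := by
              rw [← Units.val_mul, mul_inv_cancel, Units.val_one, map_one]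
            rw [map_mul, hc, hc0, zero_smul, zero_mul] at h1
            exact h1.symm
          rw [← mul_one (ρ ((a⁻¹ : Mˣ) : M)), h0, mul_zero, smul_zero]
        · refine ⟨c⁻¹, ?_⟩
          have h1 : ρ ((a : M) * ((a⁻¹ : Mˣ) : M)) = 1 := by
            rw [← Units.val_mul, mul_inv_cancel, Units.val_one, map_one]
          rw [map_mul, hc, smul_mul_assoc, one_mul] at h1
          rw [← h1, smul_smul, inv_mul_cancel₀ hc0, one_smul] }
  have hcard : Z.card = Nat.card S := by
    rw [← Nat.card_eq_finsetCard Z]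
    exact Nat.card_congr (Equiv.subtypeEquivRight (fun g => hZ g))
  intro h0
  obtain ⟨p, hp⟩ := CharP.exists k
  rw [CharP.cast_eq_zero_iff k p] at h0
  rcases CharP.char_is_prime_or_zero k p with hpp | hp0
  · haveI : Fact p.Prime := ⟨hpp⟩
    rw [hcard] at h0
    obtain ⟨g, hg⟩ := exists_prime_orderOf_dvd_card' p h0
    obtain ⟨c, hc⟩ := g.2
    have h1 : ρ (((g : Mˣ) : M) ^ p) = (c ^ p) • 1 := by
      rw [map_pow, hc, smul_pow, one_pow]
    have h2 : ((g : Mˣ) : M) ^ p = 1 := by
      have h3 : g ^ p = 1 := by rw [← hg]; exact pow_orderOf_eq_one g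
      have h4 : ((g ^ p : S) : Mˣ) = 1 := by rw [h3]; rfl
      have h5 : (((g ^ p : S) : Mˣ) : M) = 1 := by rw [h4]; rfl
      simpa using h5
    rw [h2, map_one] at h1
    by_cases hV : Nontrivial V
    · obtain ⟨x, hx⟩ := exists_ne (0 : V)
      have h3 : x = c ^ p • x := by
        have := LinearMap.congr_fun h1 x
        simpa using this
      have h4 : (c ^ p - 1) • x = 0 := by
        rw [sub_smul, one_smul, ← h3, sub_self]
      have h5 : c ^ p = 1 := by
        rcases smul_eq_zero.mp h4 with h | h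
        · exact sub_eq_zero.mp h
        · exact absurd h hx
      have h6 : c = 1 := by
        apply frobenius_inj k p
        rw [frobenius_def, frobenius_def, h5, one_pow]
      rw [h6, one_smul] at hc
      have h7 := hid _ hc
      have h8 : g = 1 := by
        apply Subtype.ext
        apply Units.ext
        exact h7
      rw [h8, orderOf_one] at hg
      exact hpp.one_lt.ne hg
    · rw [not_nontrivial_iff_subsingleton] at hV
      have h7 := hid ((g : Mˣ) : M) (Subsingleton.elim _ _)
      have h8 : g = 1 := by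
        apply Subtype.ext
        apply Units.ext
        exact h7
      rw [h8, orderOf_one] at hg
      exact hpp.one_lt.ne hg
  · subst hp0
    rw [zero_dvd_iff, hcard] at h0
    exact Nat.card_pos.ne' h0

/-- The main theorem, with the bound `n ≤ 2|M|`. -/
theorem main [FiniteDimensional k V] [Nontrivial V] (hid : ∀ m : M, ρ m = 1 → m = 1) :
    ∃ n : ℕ, 1 ≤ n ∧ n ≤ 2 * Nat.card M ∧
      ∃ (W : Submodule k (⨂[k]^n V)) (_ : Nontrivial W) (_ : FiniteDimensional k W)
        (σ : Representation k Mˣ W), IsSummand (ind σ) (tensorPower ρ n) := by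
  classical
  haveI : Fintype M := Fintype.ofFinite M
  haveI : Fintype Mˣ := Fintype.ofFinite Mˣ
  set Z : Finset Mˣ := Finset.univ.filter (fun g : Mˣ => ∃ c : k, ρ (g : M) = c • 1) with hZdef
  have hZ : ∀ g, g ∈ Z ↔ ∃ c : k, ρ (g : M) = c • 1 := by
    intro g
    simp [hZdef]
  have hcard := card_scalar_ne_zero ρ hid Z hZ
  -- the index set
  let ι := Option ({g : Mˣ // g ∉ Z} ⊕ ({m : M // ¬ IsUnit m} ⊕ {m : M // ¬ IsUnit m}))
  -- the data
  obtain ⟨v0, hv0⟩ := exists_ne (0 : V)
  have hv0' : v0 ∉ (⊥ : Submodule k V) := by simpa using hv0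
  obtain ⟨f0, -, hf0⟩ := exists_dual (k := k) _ _ hv0'
  have hA : ∀ g : {g : Mˣ // g ∉ Z}, ∃ (v : V) (l : V →ₗ[k] k),
      l v = 1 ∧ l (ρ ((g : Mˣ) : M) v) = 0 := by
    intro g
    apply exists_of_not_scalar
    intro c hc
    exact g.2 ((hZ _).2 ⟨c, hc⟩)
  choose vA lA hA1 hA2 using hA
  have hB : ∀ m : {m : M // ¬ IsUnit m}, ∃ (v : V) (l : V →ₗ[k] k),
      l v = 1 ∧ ρ (m : M) v = 0 := by
    intro m
    have h1 := nonunit_not_inj ρ hid m.1 m.2
    push Not at h1
    have h2 := h1.1
    rw [← LinearMap.ker_eq_bot, Submodule.eq_bot_iff] at h2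
    push Not at h2
    obtain ⟨x, hx, hx0⟩ := h2
    have hx' : x ∉ (⊥ : Submodule k V) := by simpa using hx0
    obtain ⟨l, -, hl⟩ := exists_dual (k := k) _ _ hx'
    exact ⟨x, l, hl, hx⟩
  choose vB lB hB1 hB2 using hB
  have hC : ∀ m : {m : M // ¬ IsUnit m}, ∃ (v : V) (l : V →ₗ[k] k),
      l v = 1 ∧ ∀ x, l (ρ (m : M) x) = 0 := by
    intro m
    have h1 := nonunit_not_inj ρ hid m.1 m.2
    push Not at h1
    have h2 := h1.2
    rw [← LinearMap.range_eq_top, Submodule.eq_top_iff'] at h2
    push Not at h2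
    obtain ⟨y, hy⟩ := h2
    obtain ⟨l, hl0, hl⟩ := exists_dual (k := k) _ _ hy
    exact ⟨y, l, hl, fun x => hl0 _ ⟨x, rfl⟩⟩
  choose vC lC hC1 hC2 using hC
  let v : ι → V := fun i => match i with
    | none => v0
    | some (Sum.inl g) => vA g
    | some (Sum.inr (Sum.inl m)) => vB m
    | some (Sum.inr (Sum.inr m)) => vC m
  let l : ι → V →ₗ[k] k := fun i => match i with
    | none => f0
    | some (Sum.inl g) => lA g
    | some (Sum.inr (Sum.inl m)) => lB m
    | some (Sum.inr (Sum.inr m)) => lC m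
  have hlv : ∀ i, l i (v i) = 1 := by
    rintro (_ | g | m | m)
    · exact hf0
    · exact hA1 g
    · exact hB1 m
    · exact hC1 m
  let e : ι ≃ Fin (Fintype.card ι) := Fintype.equivFin ι
  refine ⟨Fintype.card ι, ?_, ?_, ?_⟩
  · exact Fintype.card_pos_iff.2 ⟨none⟩
  · -- the bound
    have h1 : Fintype.card ι = (Fintype.card {g : Mˣ // g ∉ Z} +
        (Fintype.card {m : M // ¬ IsUnit m} + Fintype.card {m : M // ¬ IsUnit m})) + 1 := by
      simp only [ι, Fintype.card_option, Fintype.card_sum]
    have h2 : Fintype.card {g : Mˣ // g ∉ Z} < Fintype.card Mˣ := by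
      apply Fintype.card_subtype_lt (x := (1 : Mˣ))
      rw [not_not, hZ]
      exact ⟨1, by simp⟩
    have h3 : Fintype.card Mˣ = Fintype.card {m : M // IsUnit m} :=
      Fintype.card_congr
        { toFun := fun u => ⟨u, u.isUnit⟩
          invFun := fun m => m.2.unit
          left_inv := fun u => by ext; rfl
          right_inv := fun m => by ext; rfl }
    have h4 : Fintype.card {m : M // IsUnit m} + Fintype.card {m : M // ¬ IsUnit m} =
        Fintype.card M := by
      rw [Fintype.card_subtype_compl]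
      have := Fintype.card_subtype_le (fun m : M => IsUnit m)
      omega
    rw [Nat.card_eq_fintype_card]
    omega
  · refine summand_of_families ρ (Fintype.card ι) Z hcard (fun g hg => (hZ g).1 hg)
      (fun i => v (e.symm i)) (fun i => l (e.symm i)) (fun i => hlv _) ?_ ?_ ?_
    · intro g hg
      refine ⟨e (some (Sum.inl ⟨g, hg⟩)), ?_⟩
      simp only [Equiv.symm_apply_apply]
      exact hA2 ⟨g, hg⟩
    · intro m hm
      refine ⟨e (some (Sum.inr (Sum.inl ⟨m, hm⟩))), ?_⟩
      simp only [Equiv.symm_apply_apply]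
      exact hB2 ⟨m, hm⟩
    · intro m hm
      refine ⟨e (some (Sum.inr (Sum.inr ⟨m, hm⟩))), ?_⟩
      simp only [Equiv.symm_apply_apply]
      exact hC2 ⟨m, hm⟩

end main

/-- **Q1 of MP_09fe95_al is true.** Let `M` be a finite monoid, `k` a field (not necessarily
algebraically closed, of any characteristic) and `(V, ρ)` a nonzero finite-dimensional `kM`-module
such that the only element of `M` acting as the identity is `1`. Then there are an integer `n` with
`1 ≤ n ≤ 2|M|` and a nonzero finite-dimensional `kMˣ`-module `(W, σ)` such that `Ind(W)` is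
isomorphic to a direct summand of the `kM`-module `V^{⊗ n}`. -/
theorem result (M : Type u) [Monoid M] [Finite M] (k : Type v) [Field k]
    (V : Type w) [AddCommGroup V] [Module k V] [FiniteDimensional k V] [Nontrivial V]
    (ρ : Representation k M V) (hid : ∀ m : M, ρ m = 1 → m = 1) :
    ∃ n : ℕ, 1 ≤ n ∧ n ≤ 2 * Nat.card M ∧
      ∃ (W : Type (max v w)) (_ : AddCommGroup W) (_ : Module k W) (_ : FiniteDimensional k W)
        (_ : Nontrivial W) (σ : Representation k Mˣ W),
        IsSummand (ind σ) (tensorPower ρ n) := by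
  obtain ⟨n, h1, h2, W, hW, hfd, σ, hσ⟩ := main ρ hid
  exact ⟨n, h1, h2, W, inferInstance, inferInstance, hfd, hW, σ, hσ⟩

end Pool.Agent.Results.MP_09fe95_al.IndSummand
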